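import Pool.Agent.T2H70.SR.Fin

set_option autoImplicit false

/-!
# MP_aed30a_nt: the numbers of irreducible subrings of `ℤ_p^n` are not polynomials in `p`

There are `n ≤ e` for which no polynomial, and not even a rational function, agrees with `g_n(p^e)` at all primes `p ≥ 5`.

Outline. Irreducible subrings of index `p^(n-1+E)` correspond to the lattices `Γ ∋ 1` of index `p^E` with `p Γ Γ ⊆ Γ` (`A2`). At most
`2 E` coordinates of such a lattice are not flat (`A3`), so the number is, for all `n`, a combination of `choose n k * p^(i n)` with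
coefficients that do not depend on `n` (`A4`, `A5`, `A5a`); if all the numbers were rational functions of `p` the coefficients would
be too (`A1`, `A6`), in particular the number of lattices `Γ ⊆ ℤ_p^10` of index `p^11` and embedding dimension `3` (`A7`), which
is up to explicit factors the number of 10-tuples of points of the affine plane over `𝔽_p` that lie on no cubic (`A8`). By counting the
pairs (cubic, ten points on it) this is a rational function plus an explicit multiple of a sum `T(p)` over all elliptic curves over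
`𝔽_p` of a polynomial in the number of points (`B1` to `B10`, `S0` to `S7`). `T(p)` is at most a constant times `p^14`, so it would be a
polynomial of degree at most `14`; its values at the 16 primes from `5` to `61` show that it is not (`C1`, `C2`).
-/

namespace Pool.Agent.Results.MP_aed30a_nt.NotPolynomial

/-- the irreducible subrings (with `1`) of index `p^e` of `ℤ_p^n` -/
def IrrSubrings (p : ℕ) [Fact p.Prime] (n e : ℕ) : Set (Subring (Fin n → ℤ_[p])) :=
  {L | L.toAddSubgroup.index = p ^ e ∧ ∀ x ∈ L, ∀ i j, (p : ℤ_[p]) ∣ x i - x j}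

/-- the number `g_n(p^e)` of irreducible subrings of index `p^e` of `ℤ_p^n` that contain `1` -/
noncomputable def g (p : ℕ) [Fact p.Prime] (n e : ℕ) : ℕ := (IrrSubrings p n e).ncard

/-- **Theorem.** There are `1 ≤ n ≤ e` such that no rational function (in particular no polynomial)
agrees with `g_n(p^e)` at all primes `p ≥ 5`. -/
theorem result : ∃ n e : ℕ, 1 ≤ n ∧ n ≤ e ∧
    ¬ ∃ u v : Polynomial ℚ, ∀ (p : ℕ) [Fact p.Prime], 5 ≤ p →
      v.eval (p : ℚ) ≠ 0 ∧ (g p n e : ℚ) = u.eval (p : ℚ) / v.eval (p : ℚ) := by
  obtain ⟨n, e, hn, he, h⟩ := Pool.Agent.T2H70.SR.exists_not_rat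
  refine ⟨n, e, hn, he, ?_⟩
  rintro ⟨u, v, huv⟩
  apply h
  refine ⟨u, v, ?_⟩
  intro p hp h5
  have : Fact p.Prime := ⟨hp⟩
  obtain ⟨h1, h2⟩ := huv p h5
  refine ⟨h1, ?_⟩
  unfold Pool.Agent.T2H70.SR.cIrr
  rw [Pool.Agent.T2H70.SR.lift_apply]
  have h3 : ((Pool.Agent.T2H70.SR.Irr p n e).ncard : ℚ) = u.eval (p : ℚ) / v.eval (p : ℚ) := h2
  rw [h3]
  field_simp

end Pool.Agent.Results.MP_aed30a_nt.NotPolynomial
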